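import Mathlib

set_option autoImplicit false

/-!
# The two cubics of the points of order nine have no rational root
-/

namespace Pool.Agent.FK4

open Polynomial in
theorem cub9_int {d : ℚ} {a b : ℤ} (h : d ^ 3 + a * d ^ 2 + b * d + 1 = 0) :
    ∃ n : ℤ, (n = 1 ∨ n = -1) ∧ n ^ 3 + a * n ^ 2 + b * n + 1 = 0 := by
  have hI : IsIntegral ℤ d := by
    refine ⟨X ^ 3 + C a * X ^ 2 + C b * X + C 1, by monicity!, ?_⟩
    simp only [eval₂_add, eval₂_mul, eval₂_pow, eval₂_X, eval₂_C]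
    simpa using h
  obtain ⟨n, hn⟩ := IsIntegrallyClosed.isIntegral_iff.1 hI
  have hn' : (n : ℚ) = d := by simpa using hn
  rw [← hn'] at h
  have h1 : n ^ 3 + a * n ^ 2 + b * n + 1 = 0 := by exact_mod_cast h
  have h2 : n ∣ 1 := ⟨-(n ^ 2 + a * n + b), by linarith⟩
  exact ⟨n, Int.isUnit_iff.1 (isUnit_of_dvd_one h2), h1⟩

theorem cub9_rat (d : ℚ) : d ^ 3 - 3 * d ^ 2 + 1 ≠ 0 ∧ d ^ 3 + 3 * d ^ 2 - 6 * d + 1 ≠ 0 := by
  constructor
  · intro h
    obtain ⟨n, rfl | rfl, h1⟩ := cub9_int (d := d) (a := -3) (b := 0) (by push_cast; linarith) <;>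
      norm_num at h1
  · intro h
    obtain ⟨n, rfl | rfl, h1⟩ := cub9_int (d := d) (a := 3) (b := -6) (by push_cast; linarith) <;>
      norm_num at h1

end Pool.Agent.FK4
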